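import Pool.Agent.H80.BG.Defs

/-! # Basic generation passes down in the Tukey order: proofs -/

set_option autoImplicit false

namespace Pool.Agent.H80.BG

open Filter Set

/-! ### Coding -/

theorem Converges.agree {X : ℕ → Set ℕ} {Y : Set ℕ} (h : Converges X Y) (M : ℕ) :
    ∀ᶠ n in Filter.atTop, ∀ m ≤ M, (m ∈ X n ↔ m ∈ Y) := by
  have h1 : ∀ᶠ n in Filter.atTop, ∀ m ∈ Set.Iic M, (m ∈ X n ↔ m ∈ Y) :=
    (Filter.eventually_all_finite (Set.finite_Iic M)).2 (fun m _ => h m)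
  exact h1

theorem sInf_agree {S T : Set ℕ} (hS : S.Nonempty) (h : ∀ m ≤ sInf S, (m ∈ T ↔ m ∈ S)) :
    sInf T = sInf S := by
  have h1 : sInf S ∈ T := (h _ le_rfl).2 (Nat.sInf_mem hS)
  have h2 : sInf T ≤ sInf S := Nat.sInf_le h1
  have h3 : sInf T ∈ T := Nat.sInf_mem ⟨_, h1⟩
  have h4 : sInf T ∈ S := (h _ h2).1 h3
  exact le_antisymm h2 (Nat.sInf_le h4)

/-- The sequence of first elements of successively higher blocks of `D`. -/
noncomputable def rho (p : ℕ → ℕ) (D : Set ℕ) : ℕ → ℕ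
  | 0 => sInf D
  | (j+1) => sInf {x | x ∈ D ∧ p (rho p D j) < p x}

/-- The coded real. -/
def bit (p : ℕ → ℕ) (D : Set ℕ) (j : ℕ) : Prop :=
  ∃ x ∈ D, rho p D j < x ∧ x < rho p D (j+1) ∧ p x = p (rho p D j)

theorem rho_conv {p : ℕ → ℕ} {X : ℕ → Set ℕ} {D : Set ℕ} (h : Converges X D) (hD : D.Nonempty)
    (hD' : ∀ j, {x | x ∈ D ∧ p (rho p D j) < p x}.Nonempty) :
    ∀ j, ∀ᶠ k in Filter.atTop, rho p (X k) j = rho p D j := by
  intro j
  induction j with
  | zero =>
    filter_upwards [h.agree (sInf D)] with k hk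
    exact sInf_agree hD hk
  | succ j ih =>
    filter_upwards [ih, h.agree (rho p D (j+1))] with k hk1 hk2
    have : rho p (X k) (j+1) = sInf {x | x ∈ X k ∧ p (rho p D j) < p x} := by
      rw [← hk1]; rfl
    rw [this]
    apply sInf_agree (hD' j)
    intro m hm
    have := hk2 m hm
    simp only [Set.mem_setOf_eq, this]

theorem bit_conv {p : ℕ → ℕ} {X : ℕ → Set ℕ} {D : Set ℕ} (h : Converges X D) (hD : D.Nonempty)
    (hD' : ∀ j, {x | x ∈ D ∧ p (rho p D j) < p x}.Nonempty) :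
    ∀ j, ∀ᶠ k in Filter.atTop, (bit p (X k) j ↔ bit p D j) := by
  intro j
  filter_upwards [rho_conv h hD hD' j, rho_conv h hD hD' (j+1), h.agree (rho p D (j+1))]
    with k h1 h2 h3
  unfold bit
  rw [h1, h2]
  constructor
  · rintro ⟨x, hx, hx1, hx2, hx3⟩
    exact ⟨x, (h3 x hx2.le).1 hx, hx1, hx2, hx3⟩
  · rintro ⟨x, hx, hx1, hx2, hx3⟩
    exact ⟨x, (h3 x hx2.le).2 hx, hx1, hx2, hx3⟩

/-- Coding: each member `C` of `V` contains a member `C'` of `V` such that, for every real `y`,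
some set between `C'` and `C` codes `y`. -/
theorem encode (V : Ultrafilter ℕ) (p : ℕ → ℕ) (h1 : ∀ n, {x | p x = n} ∉ V)
    (h2 : ∀ C ∈ V, ∃ n, (C ∩ {x | p x = n}).Infinite) (C : Set ℕ) (hC : C ∈ V) :
    ∃ C' ⊆ C, C' ∈ V ∧ ∀ y : Set ℕ, ∃ D : Set ℕ, C' ⊆ D ∧ D ⊆ C ∧ D.Nonempty ∧
      (∀ j, {x | x ∈ D ∧ p (rho p D j) < p x}.Nonempty) ∧ ∀ j, (bit p D j ↔ j ∈ y) := by
  classical
  -- the set of infinite sections
  set N : Set ℕ := {n | (C ∩ {x | p x = n}).Infinite} with hN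
  -- a subset of `C` with finite sections is not in `V`
  have hfin : ∀ S : Set ℕ, (∀ n, (S ∩ {x | p x = n}).Finite) → S ∉ V := by
    intro S hS hSV
    obtain ⟨n, hn⟩ := h2 S hSV
    exact hn (hS n)
  have hNinf : N.Infinite := by
    intro hNfin
    -- C = (C ∩ p⁻¹ N) ∪ (C \ p⁻¹ N)
    have hA : {x | x ∈ C ∧ p x ∉ N} ∉ V := by
      apply hfin
      intro n
      by_cases hn : n ∈ N
      · convert Set.finite_empty (α := ℕ)
        ext x
        simp only [Set.mem_inter_iff, Set.mem_setOf_eq, Set.mem_empty_iff_false, iff_false]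
        rintro ⟨⟨_, h⟩, rfl⟩
        exact h hn
      · have : (C ∩ {x | p x = n}).Finite := Set.not_infinite.1 hn
        apply this.subset
        rintro x ⟨⟨hx, _⟩, hx'⟩
        exact ⟨hx, hx'⟩
    have hB : {x | p x ∈ N} ∉ V := by
      have : {x | p x ∈ N} = ⋃ n ∈ N, {x | p x = n} := by
        ext x; simp
      rw [this]
      intro hmem
      rw [Ultrafilter.finite_biUnion_mem_iff hNfin] at hmem
      obtain ⟨n, _, hn⟩ := hmem
      exact h1 n hn
    have hU : {x | x ∈ C ∧ p x ∉ N} ∪ {x | p x ∈ N} ∈ V := by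
      apply Filter.mem_of_superset hC
      intro x hx
      by_cases h : p x ∈ N
      · exact Or.inr h
      · exact Or.inl ⟨hx, h⟩
    rcases Ultrafilter.union_mem_iff.1 hU with h | h
    · exact hA h
    · exact hB h
  -- enumeration of N
  set e : ℕ → ℕ := Nat.nth (· ∈ N) with he
  have heN : ∀ j, e j ∈ N := fun j => Nat.nth_mem_of_infinite hNinf j
  have hemono : StrictMono e := Nat.nth_strictMono hNinf
  have hesurj : ∀ n ∈ N, ∃ j, e j = n := by
    intro n hn
    exact ⟨_, Nat.nth_count hn⟩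
  -- the increasing sequence t
  have hfreq : ∀ n, ∃ᶠ k in Filter.atTop, (k ∈ C ∧ p k = e (n / 2)) := by
    intro n
    have : {k | k ∈ C ∧ p k = e (n / 2)}.Infinite := heN (n/2)
    exact Nat.frequently_atTop_iff_infinite.2 this
  obtain ⟨t, htmono, ht⟩ := Filter.extraction_forall_of_frequently hfreq
  have ht0 : ∀ j, p (t (2*j)) = e j := by
    intro j
    have := (ht (2*j)).2
    rwa [Nat.mul_div_cancel_left j (by norm_num)] at this
  have ht1 : ∀ j, p (t (2*j+1)) = e j := by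
    intro j
    have := (ht (2*j+1)).2
    have h3 : (2*j+1)/2 = j := by omega
    rwa [h3] at this
  have htC : ∀ n, t n ∈ C := fun n => (ht n).1
  set C' : Set ℕ := {x | x ∈ C ∧ ∃ j, p x = e j ∧ t (2*j+2) < x} with hC'
  refine ⟨C', fun x hx => hx.1, ?_, ?_⟩
  · -- C' ∈ V
    have hdiff : C \ C' ∉ V := by
      apply hfin
      intro n
      by_cases hn : n ∈ N
      · obtain ⟨j, rfl⟩ := hesurj n hn
        apply (Set.finite_Iic (t (2*j+2))).subset
        rintro x ⟨⟨hx, hx'⟩, hx''⟩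
        simp only [Set.mem_Iic]
        by_contra hlt
        push Not at hlt
        exact hx' ⟨hx, j, hx'', hlt⟩
      · have : (C ∩ {x | p x = n}).Finite := Set.not_infinite.1 hn
        apply this.subset
        rintro x ⟨⟨hx, _⟩, hx'⟩
        exact ⟨hx, hx'⟩
    have hU : C' ∪ (C \ C') ∈ V := by
      apply Filter.mem_of_superset hC
      intro x hx
      by_cases h : x ∈ C'
      · exact Or.inl h
      · exact Or.inr ⟨hx, h⟩
    rcases Ultrafilter.union_mem_iff.1 hU with h | h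
    · exact h
    · exact absurd h hdiff
  · intro y
    set D : Set ℕ := {x | x ∈ C' ∨ (∃ j, x = t (2*j)) ∨ (∃ j, j ∈ y ∧ x = t (2*j+1))} with hD
    -- characterisation of elements of D
    have hrho : ∀ j, rho p D j = t (2*j) := by
      intro j
      induction j with
      | zero =>
        have hmem : t 0 ∈ D := Or.inr (Or.inl ⟨0, rfl⟩)
        have hge : ∀ x ∈ D, t 0 ≤ x := by
          rintro x (hx | ⟨j, rfl⟩ | ⟨j, _, rfl⟩)
          · obtain ⟨_, j, _, hj⟩ := hx
            exact (htmono.monotone (Nat.zero_le _)).trans hj.le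
          · exact htmono.monotone (Nat.zero_le _)
          · exact htmono.monotone (Nat.zero_le _)
        exact le_antisymm (Nat.sInf_le hmem) (hge _ (Nat.sInf_mem ⟨_, hmem⟩))
      | succ j ih =>
        have hmem : t (2*(j+1)) ∈ {x | x ∈ D ∧ p (rho p D j) < p x} := by
          refine ⟨Or.inr (Or.inl ⟨j+1, rfl⟩), ?_⟩
          rw [ih, ht0, ht0]
          exact hemono (Nat.lt_succ_self j)
        have hge : ∀ x ∈ {x | x ∈ D ∧ p (rho p D j) < p x}, t (2*(j+1)) ≤ x := by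
          rintro x ⟨hx, hx2⟩
          rw [ih, ht0] at hx2
          rcases hx with (hx | ⟨i, rfl⟩ | ⟨i, _, rfl⟩)
          · obtain ⟨_, i, hi, hi2⟩ := hx
            rw [hi] at hx2
            have : j < i := hemono.lt_iff_lt.1 hx2
            refine le_trans (htmono.monotone ?_) hi2.le
            omega
          · rw [ht0] at hx2
            have : j < i := hemono.lt_iff_lt.1 hx2
            apply htmono.monotone
            omega
          · rw [ht1] at hx2
            have : j < i := hemono.lt_iff_lt.1 hx2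
            apply htmono.monotone
            omega
        exact le_antisymm (Nat.sInf_le hmem) (hge _ (Nat.sInf_mem ⟨_, hmem⟩))
    refine ⟨D, fun x hx => Or.inl hx, ?_, ⟨t 0, Or.inr (Or.inl ⟨0, rfl⟩)⟩, ?_, ?_⟩
    · rintro x (hx | ⟨j, rfl⟩ | ⟨j, _, rfl⟩)
      · exact hx.1
      · exact htC _
      · exact htC _
    · intro j
      refine ⟨t (2*(j+1)), Or.inr (Or.inl ⟨j+1, rfl⟩), ?_⟩
      rw [hrho, ht0, ht0]
      exact hemono (Nat.lt_succ_self j)
    · intro j
      unfold bit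
      rw [hrho, hrho, ht0]
      constructor
      · rintro ⟨x, hx, hx1, hx2, hx3⟩
        rcases hx with (hx | ⟨i, rfl⟩ | ⟨i, hi, rfl⟩)
        · obtain ⟨_, i, hi, hi2⟩ := hx
          rw [hi] at hx3
          have : i = j := hemono.injective hx3
          subst this
          have h5 : 2 * (i+1) = 2*i+2 := by ring
          rw [h5] at hx2
          exact absurd hx2 (not_lt.2 hi2.le)
        · have h5 := htmono.lt_iff_lt.1 hx1
          have h6 := htmono.lt_iff_lt.1 hx2
          omega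
        · have h5 := htmono.lt_iff_lt.1 hx1
          have h6 := htmono.lt_iff_lt.1 hx2
          have : i = j := by omega
          subst this
          exact hi
      · intro hj
        refine ⟨t (2*j+1), Or.inr (Or.inr ⟨j, hj, rfl⟩), htmono (by omega), htmono (by omega), ht1 j⟩

/-- A p-point (or principal ultrafilter) is basically generated, with base all of `V`. -/
theorem ppoint_case (V : Ultrafilter ℕ)
    (hV : ∀ A : ℕ → Set ℕ, (∀ n, A n ∈ V) → ∃ B ∈ V, ∀ n, (B \ A n).Finite)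
    (X : ℕ → Set ℕ) (Y : Set ℕ) (hX : ∀ n, X n ∈ V) (hY : Y ∈ V) (hconv : Converges X Y) :
    ∃ φ : ℕ → ℕ, StrictMono φ ∧ (⋂ k, X (φ k)) ∈ V := by
  classical
  obtain ⟨B, hB, hBX⟩ := hV X hX
  -- WLOG B ⊆ Y
  set A : Set ℕ := B ∩ Y with hA
  have hAV : A ∈ V := Filter.inter_mem hB hY
  have hg : ∀ n, ∃ g : ℕ, ∀ x ∈ A, x ∉ X n → x < g := by
    intro n
    obtain ⟨g, hg⟩ := (hBX n).bddAbove
    refine ⟨g+1, fun x hx hx' => Nat.lt_succ_of_le (hg ⟨hx.1, hx'⟩)⟩
  choose g hg using hg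
  have hN : ∀ M, ∃ N, ∀ n ≥ N, ∀ m ≤ M, (m ∈ X n ↔ m ∈ Y) := by
    intro M
    exact Filter.eventually_atTop.1 (hconv.agree M)
  choose N hN using hN
  -- construct the sequence of pairs (n_k, m_k)
  let F : ℕ × ℕ → ℕ × ℕ := fun q =>
    (max (q.1 + 1) (N (max (q.2+1) (g q.1))), max (q.2 + 1) (g q.1))
  let s : ℕ → ℕ × ℕ := fun k => F^[k] (N 0, 0)
  have hs : ∀ k, s (k+1) = F (s k) := fun k => Function.iterate_succ_apply' F k _
  have hs1 : ∀ k, (s k).1 < (s (k+1)).1 := by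
    intro k; rw [hs]
    exact lt_of_lt_of_le (Nat.lt_succ_self _) (le_max_left _ _)
  have hs2 : ∀ k, (s k).2 < (s (k+1)).2 := by
    intro k; rw [hs]
    exact lt_of_lt_of_le (Nat.lt_succ_self _) (le_max_left _ _)
  have hs3 : ∀ k, g (s k).1 ≤ (s (k+1)).2 := by
    intro k; rw [hs]
    exact le_max_right _ _
  have hs4 : ∀ k, N (s k).2 ≤ (s k).1 := by
    intro k
    cases k with
    | zero => exact le_rfl
    | succ k => rw [hs]; exact le_max_right _ _
  have hm1 : StrictMono (fun k => (s k).1) := strictMono_nat_of_lt_succ hs1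
  have hm2 : StrictMono (fun k => (s k).2) := strictMono_nat_of_lt_succ hs2
  -- for x ∈ A, x ∉ X (n_k) → m_k < x < m_{k+1}
  have key : ∀ k x, x ∈ A → x ∉ X (s k).1 → (s k).2 < x ∧ x < (s (k+1)).2 := by
    intro k x hx hx'
    constructor
    · by_contra hle
      push Not at hle
      exact hx' ((hN (s k).2 (s k).1 (hs4 k) x hle).2 hx.2)
    · exact lt_of_lt_of_le (hg _ x hx hx') (hs3 k)
  set E : Set ℕ := {x | ∃ k, (s (2*k)).2 < x ∧ x < (s (2*k+1)).2} with hE
  by_cases hcase : E ∈ V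
  · refine ⟨fun k => (s (2*k+1)).1, ?_, ?_⟩
    · intro a b hab
      exact hm1 (by omega)
    · apply Filter.mem_of_superset (Filter.inter_mem hAV hcase)
      rintro x ⟨hx, ⟨k, hk1, hk2⟩⟩
      rw [Set.mem_iInter]
      intro j
      by_contra hx'
      obtain ⟨h1, h2⟩ := key _ x hx hx'
      have h3 : (s (2*k)).2 < (s (2*j+1+1)).2 := hk1.trans h2
      have h4 : (s (2*j+1)).2 < (s (2*k+1)).2 := h1.trans hk2
      have h5 := hm2.lt_iff_lt.1 h3
      have h6 := hm2.lt_iff_lt.1 h4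
      omega
  · have hcase' : Eᶜ ∈ V := Ultrafilter.compl_mem_iff_notMem.2 hcase
    refine ⟨fun k => (s (2*k)).1, ?_, ?_⟩
    · intro a b hab
      exact hm1 (by omega)
    · apply Filter.mem_of_superset (Filter.inter_mem hAV hcase')
      rintro x ⟨hx, hk⟩
      rw [Set.mem_iInter]
      intro j
      by_contra hx'
      obtain ⟨h1, h2⟩ := key _ x hx hx'
      exact hk ⟨j, h1, h2⟩


/-! ### The reduction theorem -/

/-- Q1, the case of an ultrafilter `V` on `ℕ`. -/
theorem main_nat {α : Type} [Countable α] (U : Filter α) (V : Ultrafilter ℕ)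
    (hT : TukeyBelow (V : Filter ℕ) U) (hBG : BasicallyGenerated U) :
    BasicallyGenerated (V : Filter ℕ) := by
  classical
  obtain ⟨e, he⟩ := Countable.exists_injective_nat α
  obtain ⟨f, hfV, hfmono, hfcof⟩ := hT
  obtain ⟨𝓑, h𝓑U, h𝓑base, h𝓑conv⟩ := hBG
  by_cases hP : ∀ A : ℕ → Set ℕ, (∀ n, A n ∈ V) → ∃ B ∈ V, ∀ n, (B \ A n).Finite
  · refine ⟨{X | X ∈ V}, fun X hX => hX, fun A hA => ⟨A, hA, subset_rfl⟩, ?_⟩
    intro X Y hX hY hconv
    exact ppoint_case V hP X Y hX hY hconv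
  · push Not at hP
    obtain ⟨A, hAV, hA⟩ := hP
    set p : ℕ → ℕ := fun x => sInf {n | x ∉ A n} with hp
    have hinter : {x | ∀ n, x ∈ A n} ∉ V := by
      intro hmem
      obtain ⟨n, hn⟩ := hA _ hmem
      apply hn
      convert Set.finite_empty (α := ℕ)
      ext x
      simp only [Set.mem_diff, Set.mem_setOf_eq, Set.mem_empty_iff_false, iff_false, not_and,
        not_not]
      intro h
      exact h n
    have h1 : ∀ n, {x | p x = n} ∉ V := by
      intro n hmem
      have hsub : {x | p x = n} ⊆ {x | ∀ n, x ∈ A n} ∪ (A n)ᶜ := by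
        intro x hx
        by_cases hall : ∀ n, x ∈ A n
        · exact Or.inl hall
        · right
          push Not at hall
          have : sInf {n | x ∉ A n} ∈ {n | x ∉ A n} := Nat.sInf_mem hall
          have hx' : sInf {n | x ∉ A n} = n := hx
          rw [hx'] at this
          exact this
      have hU : {x | ∀ n, x ∈ A n} ∪ (A n)ᶜ ∈ V := Filter.mem_of_superset hmem hsub
      rcases Ultrafilter.union_mem_iff.1 hU with h | h
      · exact hinter h
      · exact Ultrafilter.compl_notMem_iff.2 (hAV n) h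
    have h2 : ∀ C ∈ V, ∃ n, (C ∩ {x | p x = n}).Infinite := by
      intro C hC
      by_contra hcon
      push Not at hcon
      have hcompl : {x | ∀ n, x ∈ A n}ᶜ ∈ V := Ultrafilter.compl_mem_iff_notMem.2 hinter
      obtain ⟨n, hn⟩ := hA (C ∩ {x | ∀ n, x ∈ A n}ᶜ) (Filter.inter_mem hC hcompl)
      apply hn
      have hfin : (⋃ m ∈ Set.Iic n, (C ∩ {x | p x = m})).Finite := by
        apply Set.Finite.biUnion (Set.finite_Iic n)
        intro m _
        exact hcon m
      apply hfin.subset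
      rintro x ⟨⟨hxC, _⟩, hxn⟩
      simp only [Set.mem_iUnion]
      refine ⟨p x, ?_, hxC, rfl⟩
      exact Nat.sInf_le hxn
    have hg : ∀ B ∈ V, ∃ Y ∈ 𝓑, ∀ X ∈ U, X ⊆ Y → f X ⊆ B := by
      intro B hB
      obtain ⟨A', hA', hfA'⟩ := hfcof B hB
      obtain ⟨Y, hY, hYA⟩ := h𝓑base A' hA'
      exact ⟨Y, hY, fun X hX hXY => (hfmono A' hA' X hX (hXY.trans hYA)).trans hfA'⟩
    choose! g hg1 hg2 using hg
    have henc := encode V p h1 h2
    choose! C' hC'sub hC'V D hC'D hDC hDne hDne' hDbit using henc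
    refine ⟨{E | ∃ C ∈ V, E = D C (e '' g (C' C))}, ?_, ?_, ?_⟩
    · rintro E ⟨C, hC, rfl⟩
      exact Filter.mem_of_superset (hC'V C hC) (hC'D C hC _)
    · intro C hC
      exact ⟨_, ⟨C, hC, rfl⟩, hDC C hC _⟩
    · intro X Y hX hY hconv
      choose Cs hCs hCsX using hX
      obtain ⟨C, hC, rfl⟩ := hY
      have hb := bit_conv (p := p) hconv (hDne C hC _) (hDne' C hC _)
      have hconv2 : ∀ m : α, ∀ᶠ n in Filter.atTop, (m ∈ g (C' (Cs n)) ↔ m ∈ g (C' C)) := by
        intro m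
        filter_upwards [hb (e m)] with n hn
        have hm : ∀ S : Set α, e m ∈ e '' S ↔ m ∈ S := fun S =>
          he.mem_set_image
        rw [← hm (g (C' C)), ← hDbit C hC (e '' g (C' C)) (e m), ← hn, hCsX n,
          hDbit (Cs n) (hCs n) (e '' g (C' (Cs n))) (e m), hm]
      obtain ⟨φ, hφ, hφU⟩ := h𝓑conv (fun n => g (C' (Cs n))) (g (C' C))
        (fun n => hg1 _ (hC'V _ (hCs n))) (hg1 _ (hC'V _ hC)) hconv2
      refine ⟨φ, hφ, ?_⟩
      apply Filter.mem_of_superset (hfV _ hφU)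
      intro x hx
      rw [Set.mem_iInter]
      intro k
      rw [hCsX]
      apply hC'D _ (hCs _)
      exact hg2 _ (hC'V _ (hCs (φ k))) _ hφU (Set.iInter_subset _ k) hx

/-- Basic generation is invariant under bijections. -/
theorem bg_equiv {α β : Type} (e : α ≃ β) (U : Ultrafilter α)
    (h : BasicallyGenerated (U.map e : Filter β)) : BasicallyGenerated (U : Filter α) := by
  obtain ⟨B, hB1, hB2, hB3⟩ := h
  refine ⟨{S | e '' S ∈ B}, ?_, ?_, ?_⟩
  · intro S hS
    have := hB1 _ hS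
    rw [Ultrafilter.coe_map, Filter.mem_map, e.injective.preimage_image] at this
    exact this
  · intro A hA
    obtain ⟨X, hX, hXA⟩ := hB2 (e '' A) (by
      rw [Ultrafilter.coe_map, Filter.mem_map, e.injective.preimage_image]; exact hA)
    refine ⟨e ⁻¹' X, ?_, ?_⟩
    · change e '' (e ⁻¹' X) ∈ B
      rwa [Set.image_preimage_eq X e.surjective]
    · intro a ha
      obtain ⟨a', ha', hh⟩ := hXA ha
      rwa [← e.injective hh]
  · intro X Y hX hY hconv
    obtain ⟨φ, hφ, hφU⟩ := hB3 (fun n => e '' X n) (e '' Y) hX hY (by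
      intro b
      obtain ⟨a, rfl⟩ := e.surjective b
      filter_upwards [hconv a] with n hn
      rw [e.injective.mem_set_image, e.injective.mem_set_image]
      exact hn)
    refine ⟨φ, hφ, ?_⟩
    rw [Ultrafilter.coe_map, Filter.mem_map] at hφU
    refine Filter.mem_of_superset hφU fun a ha => ?_
    rw [Set.mem_iInter]
    intro k
    have h1 : e a ∈ e '' X (φ k) := (Set.mem_iInter.1 ha) k
    exact e.injective.mem_set_image.1 h1

/-- Q1. -/
theorem main_q1 {α β : Type} [Countable α] [Countable β] (U : Filter α) (V : Ultrafilter β)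
    (hT : TukeyBelow (V : Filter β) U) (hBG : BasicallyGenerated U) :
    BasicallyGenerated (V : Filter β) := by
  classical
  rcases finite_or_infinite β with hfin | hinf
  · refine ⟨{X | X ∈ V}, fun X hX => hX, fun A hA => ⟨A, hA, subset_rfl⟩, ?_⟩
    intro X Y hX hY hconv
    have h1 : ∀ᶠ n in atTop, ∀ m : β, (m ∈ X n ↔ m ∈ Y) := Filter.eventually_all.2 hconv
    obtain ⟨N, hN⟩ := Filter.eventually_atTop.1 h1
    refine ⟨fun k => N + k, fun a b hab => by simpa using hab, ?_⟩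
    refine Filter.mem_of_superset (show Y ∈ (V : Filter β) from hY) fun y hy => ?_
    rw [Set.mem_iInter]
    exact fun k => (hN (N + k) (Nat.le_add_right _ _) y).2 hy
  · obtain ⟨e⟩ : Nonempty (β ≃ ℕ) := by
      obtain ⟨h⟩ := nonempty_denumerable β
      exact ⟨Denumerable.eqv β⟩
    refine bg_equiv e V (main_nat U (V.map e) ?_ hBG)
    obtain ⟨f, hf1, hf2, hf3⟩ := hT
    refine ⟨fun A => e '' f A, ?_, ?_, ?_⟩
    · intro A hA
      rw [Ultrafilter.coe_map, Filter.mem_map, e.injective.preimage_image]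
      exact hf1 A hA
    · intro A hA B hB hBA
      exact Set.image_mono (hf2 A hA B hB hBA)
    · intro C hC
      rw [Ultrafilter.coe_map, Filter.mem_map] at hC
      obtain ⟨A, hA, hAC⟩ := hf3 _ hC
      exact ⟨A, hA, Set.image_subset_iff.2 hAC⟩

/-! ### Fubini iterates of p-points -/

/-- Basic generation by a base closed under intersections of two members. -/
def BGI {α : Type} (U : Filter α) : Prop :=
  ∃ B : Set (Set α), (∀ X ∈ B, X ∈ U) ∧ (∀ A ∈ U, ∃ X ∈ B, X ⊆ A) ∧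
    (∀ X ∈ B, ∀ Y ∈ B, X ∩ Y ∈ B) ∧
    ∀ (X : ℕ → Set α) (Y : Set α), (∀ n, X n ∈ B) → Y ∈ B → Converges X Y →
      ∃ φ : ℕ → ℕ, StrictMono φ ∧ (⋂ k, X (φ k)) ∈ U

theorem BGI.bg {α : Type} {U : Filter α} (h : BGI U) : BasicallyGenerated U := by
  obtain ⟨B, h1, h2, _, h4⟩ := h
  exact ⟨B, h1, h2, h4⟩

theorem bgi_ppoint (U : Ultrafilter ℕ) (h : PPoint U) : BGI (U : Filter ℕ) := by
  refine ⟨{X | X ∈ U}, fun X hX => hX, fun A hA => ⟨A, hA, subset_rfl⟩,
    fun X hX Y hY => Filter.inter_mem (f := (U : Filter ℕ)) hX hY, ?_⟩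
  intro X Y hX hY hconv
  exact ppoint_case U h.2 X Y hX hY hconv

theorem bgi_equiv {α β : Type} (e : α ≃ β) (U : Ultrafilter α)
    (h : BGI (U : Filter α)) : BGI (U.map e : Filter β) := by
  obtain ⟨B, hB1, hB2, hB3, hB4⟩ := h
  refine ⟨{S | e ⁻¹' S ∈ B}, ?_, ?_, ?_, ?_⟩
  · intro S hS
    rw [Ultrafilter.coe_map, Filter.mem_map]
    exact hB1 _ hS
  · intro A hA
    rw [Ultrafilter.coe_map, Filter.mem_map] at hA
    obtain ⟨X, hX, hXA⟩ := hB2 _ hA
    refine ⟨e '' X, ?_, Set.image_subset_iff.2 hXA⟩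
    change e ⁻¹' (e '' X) ∈ B
    rwa [e.injective.preimage_image]
  · intro X hX Y hY
    exact hB3 _ hX _ hY
  · intro X Y hX hY hconv
    obtain ⟨φ, hφ, hφU⟩ := hB4 (fun n => e ⁻¹' X n) (e ⁻¹' Y) hX hY fun a => hconv (e a)
    refine ⟨φ, hφ, ?_⟩
    rw [Ultrafilter.coe_map, Filter.mem_map, Set.preimage_iInter]
    exact hφU

/-- Diagonalisation over subsequences. -/
theorem diag (P : ℕ → (ℕ → ℕ) → Prop)
    (h1 : ∀ n s, StrictMono s → ∃ θ : ℕ → ℕ, StrictMono θ ∧ P n (s ∘ θ))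
    (h2 : ∀ n s ψ N, StrictMono s → StrictMono ψ → P n s → (∀ k, N ≤ k → ψ k ∈ Set.range s) →
      P n ψ) :
    ∃ ψ : ℕ → ℕ, StrictMono ψ ∧ ∀ n, P n ψ := by
  classical
  choose! θ hθ1 hθ2 using h1
  let s : ℕ → (ℕ → ℕ) := fun n => Nat.rec id (fun n t => t ∘ θ n t) n
  have hs0 : s 0 = id := rfl
  have hs1 : ∀ n, s (n + 1) = s n ∘ θ n (s n) := fun n => rfl
  have hsm : ∀ n, StrictMono (s n) := by
    intro n
    induction n with
    | zero => exact strictMono_id
    | succ n ih => rw [hs1]; exact ih.comp (hθ1 n _ ih)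
  have hsub : ∀ n k, Set.range (s (n + k)) ⊆ Set.range (s n) := by
    intro n k
    induction k with
    | zero => exact subset_rfl
    | succ k ih =>
      rw [← Nat.add_assoc, hs1]
      exact (Set.range_comp_subset_range _ _).trans ih
  have hψ : StrictMono fun k => s k k := by
    refine strictMono_nat_of_lt_succ fun k => ?_
    change s k k < s (k + 1) (k + 1)
    rw [hs1]
    exact (hsm k) (lt_of_lt_of_le (Nat.lt_succ_self k) ((hθ1 k _ (hsm k)).le_apply))
  refine ⟨fun k => s k k, hψ, fun n => ?_⟩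
  have hP : P n (s (n + 1)) := by
    rw [hs1]
    exact hθ2 n _ (hsm n)
  refine h2 n (s (n + 1)) _ (n + 1) (hsm (n + 1)) hψ hP ?_
  intro k hk
  obtain ⟨j, rfl⟩ := Nat.exists_eq_add_of_le hk
  exact hsub (n + 1) j ⟨_, rfl⟩

theorem bgi_lim (U : Ultrafilter ℕ) (V : ℕ → Ultrafilter ℕ) (W : Ultrafilter (ℕ × ℕ))
    (hU : BGI (U : Filter ℕ)) (hV : ∀ n, BGI (V n : Filter ℕ)) (hW : IsFubiniLimit U V W) :
    BGI (W : Filter (ℕ × ℕ)) := by
  classical
  obtain ⟨𝓐, a1, a2, a3, a4⟩ := hU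
  choose 𝓑 b1 b2 b3 b4 using hV
  have hW' : ∀ S : Set (ℕ × ℕ), S ∈ (W : Filter (ℕ × ℕ)) ↔
      {n | {m | (n, m) ∈ S} ∈ V n} ∈ (U : Filter ℕ) := hW
  refine ⟨{S | ∃ A ∈ 𝓐, ∃ B : ℕ → Set ℕ, (∀ n, B n ∈ 𝓑 n) ∧ S = {x | x.1 ∈ A ∧ x.2 ∈ B x.1}},
    ?_, ?_, ?_, ?_⟩
  · rintro S ⟨A, hA, B, hB, rfl⟩
    rw [hW']
    refine Filter.mem_of_superset (a1 A hA) fun n hn => ?_
    refine Filter.mem_of_superset (b1 n _ (hB n)) fun m hm => ?_
    exact ⟨hn, hm⟩
  · intro S hS
    rw [hW'] at hS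
    obtain ⟨A, hA, hAS⟩ := a2 _ hS
    have hch : ∀ n, ∃ B ∈ 𝓑 n, {m | (n, m) ∈ S} ∈ V n → B ⊆ {m | (n, m) ∈ S} := by
      intro n
      by_cases h : {m | (n, m) ∈ S} ∈ V n
      · obtain ⟨B, hB, hBS⟩ := b2 n _ h
        exact ⟨B, hB, fun _ => hBS⟩
      · obtain ⟨B, hB, _⟩ := b2 n Set.univ Filter.univ_mem
        exact ⟨B, hB, fun h' => absurd h' h⟩
    choose B hB1 hB2 using hch
    refine ⟨_, ⟨A, hA, B, hB1, rfl⟩, ?_⟩
    rintro ⟨n, m⟩ ⟨hn, hm⟩
    exact hB2 n (hAS hn) hm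
  · rintro S ⟨A, hA, B, hB, rfl⟩ S' ⟨A', hA', B', hB', rfl⟩
    refine ⟨A ∩ A', a3 _ hA _ hA', fun n => B n ∩ B' n, fun n => b3 n _ (hB n) _ (hB' n), ?_⟩
    ext x
    simp only [Set.mem_inter_iff, Set.mem_setOf_eq]
    tauto
  · intro X Y hX hY hconv
    choose A hA B hB hXe using hX
    obtain ⟨A', hA', B', hB', rfl⟩ := hY
    -- first coordinate
    have hc1 : Converges (fun k => A k ∩ A') A' := by
      intro n
      by_cases hn : n ∈ A'
      · obtain ⟨m, hm⟩ : (B' n).Nonempty :=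
          Filter.nonempty_of_mem (f := (V n : Filter ℕ)) (b1 n _ (hB' n))
        filter_upwards [hconv (n, m)] with k hk
        have h1 : (n, m) ∈ X k := hk.2 ⟨hn, hm⟩
        rw [hXe] at h1
        exact ⟨fun _ => hn, fun _ => ⟨h1.1, hn⟩⟩
      · exact Filter.Eventually.of_forall fun k => ⟨fun h => h.2, fun h => absurd h hn⟩
    obtain ⟨φ, hφ, hφU⟩ := a4 _ _ (fun k => a3 _ (hA k) _ hA') hA' hc1
    set D : Set ℕ := ⋂ k, A (φ k) ∩ A' with hD
    have hDA : ∀ n ∈ D, ∀ k, n ∈ A (φ k) ∧ n ∈ A' := fun n hn k => Set.mem_iInter.1 hn k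
    obtain ⟨ψ, hψ, hψP⟩ := diag
      (fun n s => n ∈ D → (⋂ k, B (φ (s k)) n) ∈ V n) (by
        intro n s hs
        by_cases hn : n ∈ D
        · obtain ⟨θ, hθ, hθV⟩ := b4 n (fun k => B (φ (s k)) n) (B' n) (fun k => hB _ n) (hB' n) (by
            intro m
            have h1 : Tendsto (fun k => φ (s k)) atTop atTop := (hφ.comp hs).tendsto_atTop
            filter_upwards [h1.eventually (hconv (n, m))] with k hk
            rw [hXe] at hk
            simp only [Set.mem_setOf_eq, (hDA n hn (s k)).1, (hDA n hn (s k)).2, true_and] at hk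
            exact hk)
          exact ⟨θ, hθ, fun _ => hθV⟩
        · exact ⟨id, strictMono_id, fun h => absurd h hn⟩) (by
        intro n s ψ N hs hψ hP hr hn
        have h1 := hP hn
        have h2 : (⋂ k ∈ Set.Iio N, B (φ (ψ k)) n) ∈ (V n : Filter ℕ) :=
          (Filter.biInter_mem (Set.finite_Iio N)).2 fun k _ => b1 n _ (hB _ n)
        refine Filter.mem_of_superset (Filter.inter_mem (f := (V n : Filter ℕ)) h1 h2) ?_
        rintro m ⟨hm1, hm2⟩
        rw [Set.mem_iInter]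
        intro k
        by_cases hk : k < N
        · exact Set.mem_iInter₂.1 hm2 k hk
        · obtain ⟨j, hj⟩ := hr k (not_lt.1 hk)
          rw [← hj]
          exact Set.mem_iInter.1 hm1 j)
    refine ⟨φ ∘ ψ, hφ.comp hψ, ?_⟩
    rw [hW']
    refine Filter.mem_of_superset hφU fun n hn => ?_
    refine Filter.mem_of_superset (hψP n hn) fun m hm => ?_
    change (n, m) ∈ ⋂ k, X ((φ ∘ ψ) k)
    rw [Set.mem_iInter]
    intro k
    rw [hXe]
    exact ⟨(hDA n hn (ψ k)).1, Set.mem_iInter.1 hm k⟩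

theorem fubini_bgi {α : Type} {U : Ultrafilter α} (h : FubiniIterate α U) :
    Countable α ∧ BGI (U : Filter α) := by
  induction h with
  | ppoint U h => exact ⟨inferInstance, bgi_ppoint U h⟩
  | iso α β e U _ ih => exact ⟨haveI := ih.1; e.symm.injective.countable, bgi_equiv e U ih.2⟩
  | lim U V W _ _ hW ihU ihV =>
    exact ⟨inferInstance, bgi_lim U V W ihU.2 (fun n => (ihV n).2) hW⟩

/-- Q2. -/
theorem main_q2 {α β : Type} [Countable β] (U : Ultrafilter α) (V : Ultrafilter β)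
    (hF : FubiniIterate α U) (hT : TukeyBelow (V : Filter β) (U : Filter α)) :
    BasicallyGenerated (V : Filter β) := by
  obtain ⟨hc, hb⟩ := fubini_bgi hF
  exact main_q1 _ V hT hb.bg

end Pool.Agent.H80.BG
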