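import Mathlib

/-!
# Basic generation passes down in the Tukey order

Ultrafilters live on countable sets. `V` is Tukey below `U` if there is a monotone map from `U` to `V`
with cofinal image. `U` is basically generated if it has a base such that every sequence of members
converging to a member has a subsequence with intersection in `U`.

Q1: if `V` is Tukey below a basically generated `U` then `V` is basically generated.
Q2: if `V` is Tukey below a Fubini iterate of p-points then `V` is basically generated.

Idea. If `V` is a p-point, the base of all members of `V` works. Otherwise there is a partition of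
the underlying set into blocks not in `V` such that every member of `V` has infinite intersection
with infinitely many blocks. Then between a smaller member `C'` of `V` and `C` there is, for every
real `y`, a set `D` which codes `y` continuously. Let `D` code the member `Y` of the base of `U`
with `f Y` inside `C'`. These sets `D` form a base of `V` as required. For Q2 one also proves that
Fubini iterates of p-points are basically generated by a base closed under finite intersections.
-/

set_option autoImplicit false

namespace Pool.Agent.H80.BG

open Filter Set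

/-! ### Definitions used in the statement -/

/-- The sequence of sets `X n` converges to the set `Y` in the product topology of `2 ^ α`. -/
def Converges {α : Type} (X : ℕ → Set α) (Y : Set α) : Prop :=
  ∀ m : α, ∀ᶠ n in atTop, (m ∈ X n ↔ m ∈ Y)

/-- `U` is basically generated: it has a base `B` such that every sequence in `B` converging to a
member of `B` has a subsequence with intersection in `U`. -/
def BasicallyGenerated {α : Type} (U : Filter α) : Prop :=
  ∃ B : Set (Set α), (∀ X ∈ B, X ∈ U) ∧ (∀ A ∈ U, ∃ X ∈ B, X ⊆ A) ∧
    ∀ (X : ℕ → Set α) (Y : Set α), (∀ n, X n ∈ B) → Y ∈ B → Converges X Y →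
      ∃ φ : ℕ → ℕ, StrictMono φ ∧ (⋂ k, X (φ k)) ∈ U

/-- Tukey reduction of `V` to `U`: a monotone map from `U` to `V` with cofinal image. -/
def TukeyBelow {α β : Type} (V : Filter β) (U : Filter α) : Prop :=
  ∃ f : Set α → Set β, (∀ A ∈ U, f A ∈ V) ∧ (∀ A ∈ U, ∀ B ∈ U, B ⊆ A → f B ⊆ f A) ∧
    ∀ C ∈ V, ∃ A ∈ U, f A ⊆ C

/-- `U` is a p-point: nonprincipal, and any sequence of members of `U` has a pseudo-intersection
in `U`. -/
def PPoint (U : Ultrafilter ℕ) : Prop :=
  (∀ n : ℕ, {n} ∉ U) ∧
    ∀ A : ℕ → Set ℕ, (∀ n, A n ∈ U) → ∃ B ∈ U, ∀ n, (B \ A n).Finite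

/-- Being the Fubini limit of the `V n` along `U`. -/
def IsFubiniLimit (U : Ultrafilter ℕ) (V : ℕ → Ultrafilter ℕ) (W : Ultrafilter (ℕ × ℕ)) : Prop :=
  ∀ A : Set (ℕ × ℕ), A ∈ W ↔ {n | {m | (n, m) ∈ A} ∈ V n} ∈ U

/-- The Fubini iterates of p-points: the smallest class of ultrafilters which contains the p-points
on `ℕ`, is closed under isomorphism, and contains the Fubini limit of the `V n` along `U` if it
contains `U` and all `V n`. -/
inductive FubiniIterate : (α : Type) → Ultrafilter α → Prop
  | ppoint (U : Ultrafilter ℕ) (h : PPoint U) : FubiniIterate ℕ U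
  | iso (α β : Type) (e : α ≃ β) (U : Ultrafilter α) (h : FubiniIterate α U) :
      FubiniIterate β (U.map e)
  | lim (U : Ultrafilter ℕ) (V : ℕ → Ultrafilter ℕ) (W : Ultrafilter (ℕ × ℕ))
      (hU : FubiniIterate ℕ U) (hV : ∀ n, FubiniIterate ℕ (V n)) (hW : IsFubiniLimit U V W) :
      FubiniIterate (ℕ × ℕ) W

end Pool.Agent.H80.BG
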